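import Pool.Agent.Q31.GLW.Stm

/-!
Lemma RED of project GLW of helper31: the elements of the group generated by `K` and `h` are
conjugate to elements of `K` or to the values of cyclically reduced words.
-/

set_option autoImplicit false

namespace Pool.Agent.Q259.GLW

open Pool.Agent.Q31.GLW

section
variable {F V : Type} [Field F] [AddCommGroup V] [Module F V]

theorem ev_append (h : V ≃ₗ[F] V) (L₁ L₂ : List ((V ≃ₗ[F] V) × Bool)) :
    ev h (L₁ ++ L₂) = ev h L₂ * ev h L₁ := by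
  induction L₁ with
  | nil => simp [ev]
  | cons a M ih => rw [List.cons_append, ev, ev, ih, mul_assoc]

theorem ev_single (h : V ≃ₗ[F] V) (b : (V ≃ₗ[F] V) × Bool) : ev h [b] = act h b.2 * b.1 := by
  rw [ev, ev, one_mul]

theorem conj_mul_comm (x y : V ≃ₗ[F] V) : IsConj (x * y) (y * x) :=
  isConj_iff.2 ⟨y, by group⟩

theorem rot (h : V ≃ₗ[F] V) (L₁ L₂ : List ((V ≃ₗ[F] V) × Bool)) :
    IsConj (ev h (L₁ ++ L₂)) (ev h (L₂ ++ L₁)) := by
  rw [ev_append, ev_append]
  exact conj_mul_comm _ _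

theorem sc_comm {k : V ≃ₗ[F] V} (hk : Sc k) (x : V ≃ₗ[F] V) : k * x = x * k := by
  obtain ⟨c, hc⟩ := hk
  ext v
  rw [LinearEquiv.mul_apply, LinearEquiv.mul_apply, hc, hc, map_smul]

theorem act_inv (h : V ≃ₗ[F] V) {e e' : Bool} (he : e ≠ e') : act h e * act h e' = 1 := by
  cases e <;> cases e' <;> simp_all [act]

theorem cut (h : V ≃ₗ[F] V) (a b : (V ≃ₗ[F] V) × Bool) (N : List ((V ≃ₗ[F] V) × Bool))
    (ha : Sc a.1) (hab : a.2 ≠ b.2) :
    IsConj (ev h (a :: (N ++ [b]))) (ev h N * (a.1 * b.1)) := by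
  have e1 : ev h (a :: (N ++ [b])) = (act h b.2 * b.1) * (ev h N * (act h a.2 * a.1)) := by
    rw [ev, ev_append, ev_single, mul_assoc]
  have e2 : (ev h N * (act h a.2 * a.1)) * (act h b.2 * b.1) = ev h N * (a.1 * b.1) := by
    rw [mul_assoc, mul_assoc (act h a.2), ← mul_assoc a.1 (act h b.2) b.1,
      sc_comm ha (act h b.2), mul_assoc (act h b.2), ← mul_assoc (act h a.2), act_inv h hab, one_mul]
  rw [e1, ← e2]
  exact conj_mul_comm _ _

theorem absorb (h : V ≃ₗ[F] V) (c : (V ≃ₗ[F] V) × Bool) (N : List ((V ≃ₗ[F] V) × Bool))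
    (k : V ≃ₗ[F] V) : ev h (c :: N) * k = ev h ((c.1 * k, c.2) :: N) := by
  rw [ev, ev, mul_assoc, mul_assoc]

theorem not_rd : ∀ L : List ((V ≃ₗ[F] V) × Bool), ¬ Rd L →
    ∃ (L₁ : List ((V ≃ₗ[F] V) × Bool)) (b b' : (V ≃ₗ[F] V) × Bool)
      (L₂ : List ((V ≃ₗ[F] V) × Bool)), L = L₁ ++ b :: b' :: L₂ ∧ b'.2 ≠ b.2 ∧ Sc b'.1
  | [], h => absurd trivial h
  | [_], h => absurd trivial h
  | a :: b :: M, h => by
    by_cases h1 : b.2 = a.2 ∨ ¬ Sc b.1
    · have h2 : ¬ Rd (b :: M) := fun h2 => h ⟨h1, h2⟩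
      obtain ⟨L₁, c, c', L₂, e, h3, h4⟩ := not_rd (b :: M) h2
      exact ⟨a :: L₁, c, c', L₂, by rw [e]; rfl, h3, h4⟩
    · rw [not_or, not_not] at h1
      exact ⟨[], a, b, M, rfl, h1.1, h1.2⟩

theorem lastE_append (N : List ((V ≃ₗ[F] V) × Bool)) (b : (V ≃ₗ[F] V) × Bool) :
    ∀ e : Bool, lastE e (N ++ [b]) = b.2 := by
  induction N with
  | nil => intro e; rfl
  | cons c N ih => intro e; exact ih c.2

theorem main (K : Subgroup (V ≃ₗ[F] V)) (h : V ≃ₗ[F] V) :
    ∀ (n : ℕ) (L : List ((V ≃ₗ[F] V) × Bool)), L.length ≤ n → L ≠ [] → (∀ b ∈ L, b.1 ∈ K) →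
    (∃ k ∈ K, IsConj (ev h L) k) ∨ ∃ (a : (V ≃ₗ[F] V) × Bool) (M : List ((V ≃ₗ[F] V) × Bool)),
      a.1 ∈ K ∧ (∀ b ∈ M, b.1 ∈ K) ∧ Cyc a M ∧ IsConj (ev h L) (ev h (a :: M)) := by
  intro n
  induction n with
  | zero =>
    intro L hL hne
    exact absurd (List.length_eq_zero_iff.1 (Nat.le_zero.1 hL)) hne
  | succ n ih =>
    intro L hL hne hK
    obtain ⟨a, M, rfl⟩ := List.exists_cons_of_ne_nil hne
    by_cases hc : Cyc a M
    · exact Or.inr ⟨a, M, hK a (by simp), fun b hb => hK b (by simp [hb]), hc, IsConj.refl _⟩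
    · have red : ∃ (a' b : (V ≃ₗ[F] V) × Bool) (N : List ((V ≃ₗ[F] V) × Bool)), Sc a'.1 ∧
          a'.2 ≠ b.2 ∧ (∀ c ∈ a' :: (N ++ [b]), c.1 ∈ K) ∧
          (a' :: (N ++ [b])).length = (a :: M).length ∧
          IsConj (ev h (a :: M)) (ev h (a' :: (N ++ [b]))) := by
        by_cases hr : Rd (a :: M)
        · have h2 : ¬ (a.2 = lastE a.2 M ∨ ¬ Sc a.1) := fun h2 => hc ⟨hr, h2⟩
          rw [not_or, not_not] at h2
          rcases List.eq_nil_or_concat M with rfl | ⟨N, b, rfl⟩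
          · exact absurd rfl h2.1
          · rw [List.concat_eq_append] at *
            rw [lastE_append] at h2
            exact ⟨a, b, N, h2.2, h2.1, hK, rfl, IsConj.refl _⟩
        · obtain ⟨L₁, b, b', L₂, e, h3, h4⟩ := not_rd _ hr
          refine ⟨b', b, L₂ ++ L₁, h4, h3, ?_, ?_, ?_⟩
          · intro c hc
            apply hK
            rw [e]
            simp only [List.mem_cons, List.mem_append] at hc ⊢
            tauto
          · rw [e]
            simp only [List.length_cons, List.length_append, List.length_nil]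
            omega
          · have e1 : a :: M = (L₁ ++ [b]) ++ (b' :: L₂) := by rw [e]; simp
            have e2 : b' :: (L₂ ++ L₁ ++ [b]) = (b' :: L₂) ++ (L₁ ++ [b]) := by simp
            rw [e1, e2]
            exact rot h _ _
      obtain ⟨a', b, N, hs, hab, hK', hlen, hconj⟩ := red
      have hcut := hconj.trans (cut h a' b N hs hab)
      have ha'K : a'.1 ∈ K := hK' a' (by simp)
      have hbK : b.1 ∈ K := hK' b (by simp)
      have hkK : a'.1 * b.1 ∈ K := K.mul_mem ha'K hbK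
      cases N with
      | nil =>
        left
        refine ⟨a'.1 * b.1, hkK, ?_⟩
        rw [ev, one_mul] at hcut
        exact hcut
      | cons c N =>
        rw [absorb] at hcut
        have hl : ((c.1 * (a'.1 * b.1), c.2) :: N).length ≤ n := by
          simp only [List.length_cons, List.length_append, List.length_nil] at hlen hL ⊢
          omega
        have hm : ∀ d ∈ (c.1 * (a'.1 * b.1), c.2) :: N, d.1 ∈ K := by
          intro d hd
          rcases List.mem_cons.1 hd with rfl | hd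
          · exact K.mul_mem (hK' c (by simp)) hkK
          · exact hK' d (by simp [hd])
        rcases ih _ hl (by simp) hm with ⟨k, hk, hk2⟩ | ⟨a₁, M₁, q1, q2, q3, q4⟩
        · exact Or.inl ⟨k, hk, hcut.trans hk2⟩
        · exact Or.inr ⟨a₁, M₁, q1, q2, q3, hcut.trans q4⟩

end

theorem t_RED : S_RED := by
  intro F V _ _ _ K h x hx
  have form : ∃ k ∈ K, ∃ L : List ((V ≃ₗ[F] V) × Bool), (∀ b ∈ L, b.1 ∈ K) ∧ x = k * ev h L := by
    refine Subgroup.closure_induction_left
      (p := fun x _ => ∃ k ∈ K, ∃ L : List ((V ≃ₗ[F] V) × Bool), (∀ b ∈ L, b.1 ∈ K) ∧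
        x = k * ev h L) ?_ ?_ ?_ hx
    · exact ⟨1, K.one_mem, [], by simp, by simp [ev]⟩
    · rintro g hg y - ⟨k, hk, L, hL, rfl⟩
      rcases hg with hg | hg
      · exact ⟨g * k, K.mul_mem hg hk, L, hL, by rw [mul_assoc]⟩
      · rw [Set.mem_singleton_iff] at hg
        subst hg
        refine ⟨1, K.one_mem, L ++ [(k, true)], ?_, ?_⟩
        · intro b hb
          rcases List.mem_append.1 hb with hb | hb
          · exact hL b hb
          · rw [List.mem_singleton.1 hb]; exact hk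
        · rw [ev_append, ev_single, one_mul]
          simp [act, mul_assoc]
    · rintro g hg y - ⟨k, hk, L, hL, rfl⟩
      rcases hg with hg | hg
      · exact ⟨g⁻¹ * k, K.mul_mem (K.inv_mem hg) hk, L, hL, by rw [mul_assoc]⟩
      · rw [Set.mem_singleton_iff] at hg
        subst hg
        refine ⟨1, K.one_mem, L ++ [(k, false)], ?_, ?_⟩
        · intro b hb
          rcases List.mem_append.1 hb with hb | hb
          · exact hL b hb
          · rw [List.mem_singleton.1 hb]; exact hk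
        · rw [ev_append, ev_single, one_mul]
          simp [act, mul_assoc]
  obtain ⟨k, hk, L, hL, rfl⟩ := form
  cases L with
  | nil =>
    left
    refine ⟨k, hk, ?_⟩
    rw [ev, mul_one]
  | cons a M =>
    have hc : IsConj (k * ev h (a :: M)) (ev h ((a.1 * k, a.2) :: M)) := by
      rw [← absorb]
      exact conj_mul_comm _ _
    have hm : ∀ d ∈ (a.1 * k, a.2) :: M, d.1 ∈ K := by
      intro d hd
      rcases List.mem_cons.1 hd with rfl | hd
      · exact K.mul_mem (hL a (by simp)) hk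
      · exact hL d (by simp [hd])
    rcases main K h _ _ le_rfl (by simp) hm with ⟨k', hk', hk2⟩ | ⟨a₁, M₁, q1, q2, q3, q4⟩
    · exact Or.inl ⟨k', hk', hc.trans hk2⟩
    · exact Or.inr ⟨a₁, M₁, q1, q2, q3, hc.trans q4⟩

end Pool.Agent.Q259.GLW
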